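import Mathlib
import Pool.Agent.R279.Mil.Defs
import Pool.Agent.R279.Mil.Proof

set_option autoImplicit false

/-!
# MP_4f9fa7_an: Milman's moduli restricted to Birkhoff-James orthogonal pairs
-/

namespace Pool.Agent.Results.MP_4f9fa7_an.Moduli

open Pool.Agent.R279.Mil

/-- Both equalities fail. There is a two-dimensional real normed space for which
`β⁺(ε) < ζ⁺(ε) - 1` for every `ε > 0`; and for every `ε` with `0 < ε < 2` there is a two-dimensional
real normed space with `ζ⁻(ε) - 1 < β⁻(ε)`. -/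
theorem result :
    (∃ (X : Type) (_ : NormedAddCommGroup X) (_ : NormedSpace ℝ X), Module.finrank ℝ X = 2 ∧
      ∀ ε : ℝ, 0 < ε → betaP X ε < zetaP X ε - 1) ∧
    ∀ ε : ℝ, 0 < ε → ε < 2 →
      ∃ (X : Type) (_ : NormedAddCommGroup X) (_ : NormedSpace ℝ X), Module.finrank ℝ X = 2 ∧
        zetaM X ε - 1 < betaM X ε := by
  refine ⟨⟨Hex, inferInstance, inferInstance, hex_finrank, fun ε hε => ?_⟩, fun ε h0 h2 =>
    ⟨Tru (1 - ε ^ 2 / 4), inferInstance, inferInstance, tru_finrank _, ?_⟩⟩
  · have h1 := hex_beta hε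
    have h2 := hex_zeta hε
    have h3 : 0 < min 1 ε := lt_min one_pos hε
    linarith
  · have h3 := tru_beta h0 h2
    have h4 := tru_zeta h0 h2
    linarith

end Pool.Agent.Results.MP_4f9fa7_an.Moduli
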